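import Pool.Agent.H16.KISS.Final

/-!
MP_dfa59a_co (kissing number of five-dimensional space): configurations with many antipodal pairs.

Let `A` be a kissing configuration in `ℝ ^ 5` (unit vectors with pairwise distances at least one),
`b` the number of its points whose antipode also lies in `A` (twice the number of antipodal pairs),
`s` the number of the other points. Then `b ≤ 42` and
`s (559 (42 - b) + 640 b) ≤ 27225 (42 - b)`. In particular at least ten antipodal pairs give at most
`43` points, and at least fourteen antipodal pairs give at most `42` points.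
-/

set_option autoImplicit false

open Classical in
theorem Pool.Agent.Results.MP_dfa59a_co.AntipodalPairs.result
    (A : Finset (EuclideanSpace ℝ (Fin 5))) (hu : ∀ x ∈ A, ‖x‖ = 1)
    (hd : ∀ x ∈ A, ∀ y ∈ A, x ≠ y → 1 ≤ dist x y) (b s : ℕ)
    (hb : b = (A.filter fun x => -x ∈ A).card) (hs : s = (A.filter fun x => -x ∉ A).card) :
    b ≤ 42 ∧ s * (559 * (42 - b) + 640 * b) ≤ 27225 * (42 - b) ∧
      (20 ≤ b → A.card ≤ 43) ∧ (27 ≤ b → A.card ≤ 42) := by
  have hb' : b = (A.filter fun x => -x ∈ A).card := by convert hb
  have hs' : s = (A.filter fun x => ¬ -x ∈ A).card := by convert hs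
  obtain ⟨h1, h2⟩ := Pool.Agent.H16.KISS.bounds A hu hd b s hb' hs'
  have hA : A.card = b + s := by
    rw [hb', hs', Finset.card_filter_add_card_filter_not]
  refine ⟨h1, h2, fun h20 => ?_, fun h27 => ?_⟩
  · rw [hA]
    clear hb hs hb' hs' hA
    interval_cases b <;> omega
  · rw [hA]
    clear hb hs hb' hs' hA
    interval_cases b <;> omega
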