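import Pool.Agent.H66.KS.Top

/-!
MP_dfa59a_co (kissing number of five-dimensional space): symmetries of prime order.

Let `A` be a kissing configuration in `ℝ ^ 5` (unit vectors with pairwise distances at least one) which
is mapped into itself by an isometry `g` of prime order `p` fixing the origin. If `A` has `44` points
then `p` is `2`, `3` or `7`. If `p = 11` then `A` has at most `35` points, and if `p ≥ 5` and `g` fixes
two unit vectors which are neither equal nor opposite then `A` has at most `34` points.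
-/

set_option autoImplicit false

theorem Pool.Agent.Results.MP_dfa59a_co.PrimeSymmetry.result
    (A : Finset (EuclideanSpace ℝ (Fin 5))) (hu : ∀ x ∈ A, ‖x‖ = 1)
    (hd : ∀ x ∈ A, ∀ y ∈ A, x ≠ y → 1 ≤ dist x y)
    (p : ℕ) (hp : p.Prime) (g : EuclideanSpace ℝ (Fin 5) → EuclideanSpace ℝ (Fin 5))
    (hiso : ∀ x y, dist (g x) (g y) = dist x y) (h0 : g 0 = 0)
    (hg : ∃ x, g x ≠ x) (hgp : ∀ x, g^[p] x = x) (hA : ∀ x ∈ A, g x ∈ A) :
    (A.card = 44 → p = 2 ∨ p = 3 ∨ p = 7) ∧ (p = 11 → A.card ≤ 35) ∧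
      (5 ≤ p → (∃ x y, g x = x ∧ g y = y ∧ ‖x‖ = 1 ∧ ‖y‖ = 1 ∧ 0 < dist x y ∧ dist x y < 2) →
        A.card ≤ 34) :=
  Pool.Agent.H66.KS.top' A hu hd p hp g hiso h0 hg hgp hA
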